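import Pool.Agent.T9h44.LA.Layer
import Pool.Agent.W111.LAR.Cay
import Pool.Agent.W111.LAR.Top

set_option autoImplicit false

/-!
# Linear arboricity of Cayley graphs of finite groups whose connection set is spread out in an
abelian quotient, and of more general labelled graphs

`H931R3.LA.la G` is the linear arboricity (the same expression as in the frozen statement S07085).
-/

namespace Pool.Agent.Results.MP_0a041d_co.AbelianQuotients

open SimpleGraph H931R3.LA Pool.Agent.W111.LAR Pool.Agent.TH486.LAC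

/-- The linear arboricity conjecture for the finite covers of `X`, if `X` is `d`-regular: every
finite graph with a locally injective homomorphism to `X` has linear arboricity at most
`(d + 2) / 2`, with equality if it is `d`-regular. -/
def Conj {V : Type} (X : SimpleGraph V) (d : ℕ) : Prop :=
  ∀ (W : Type) [Finite W] [Nonempty W] (G : SimpleGraph W) (f : W → V),
    (∀ a b, G.Adj a b → X.Adj (f a) (f b)) →
    (∀ a b c, G.Adj a b → G.Adj a c → f b = f c → b = c) →
    la G ≤ (d + 2) / 2 ∧ ((∀ a, (G.neighborSet a).ncard = d) → la G = (d + 2) / 2)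

/-- The edges of `G` are the pairs `{x, π i x}` for `k ≥ 1` permutations `π i` of the vertices such
that, for a map `f` of the vertices to a finite abelian group `A`, `f (π i x) = f x + a i` with
elements `a i` of order `N = p ^ e`, `p` an odd prime; for each subgroup `U` of `A` with `p U = 0`
and `|U| = p ^ r`, `r ≥ 1`, twice the number of the `i` with `p ^ (e - 1) • a i ∈ U`, increased by
`2 (r - 1) ^ 2 (N - 1)`, is at most `lam * N ^ r`. -/
def Layer {W : Type} (G : SimpleGraph W) (k : ℕ) (lam : ℝ) : Prop :=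
  ∃ (p e : ℕ) (A : Type) (_ : AddCommGroup A) (_ : Finite A) (f : W → A)
    (π : Fin k → Equiv.Perm W) (a : Fin k → A), p.Prime ∧ Odd p ∧ 1 ≤ e ∧ 1 ≤ k ∧
    (∀ i, addOrderOf (a i) = p ^ e) ∧ (∀ i x, f (π i x) = f x + a i) ∧
    (∀ x y, G.Adj x y ↔ ∃ i, y = π i x ∨ x = π i y) ∧
    ∀ (U : AddSubgroup A) (r : ℕ), 1 ≤ r → (∀ u ∈ U, p • u = 0) → Nat.card U = p ^ r →
      2 * ({i | p ^ (e - 1) • a i ∈ U}.ncard : ℝ) + 2 * ((r : ℝ) - 1) ^ 2 * ((p : ℝ) ^ e - 1) ≤
        lam * ((p : ℝ) ^ e) ^ r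

theorem layers {V : Type} [Finite V] (X : SimpleGraph V) (l : ℕ) (hl : 1 ≤ l)
    (G : Fin l → SimpleGraph V) (k : Fin l → ℕ) (lam : Fin l → ℝ)
    (hG : ∀ j, Layer (G j) (k j) (lam j)) (hlam : ∑ j, lam j ≤ 1) (hX : X = ⨆ j, G j) :
    Conj X (2 * ∑ j, k j) := by
  have h1 : ∀ j, T9h44.LA.LDL (G j) (k j) (lam j) := by
    intro j
    obtain ⟨p, e, A, _, _, f, π, a, hp, hpo, he, hk, hord, hf, hG, hU⟩ := hG j
    exact T9h44.LA.layer_ldl hp hpo he hk f π a hord hf (lam j) hU (G j) hG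
  have hLD : LD X (∑ j, k j) := by
    rw [hX]
    exact (T9h44.LA.LDL.iSup G k lam h1).ld hlam
  have hpos : 0 < ∑ j, k j := by
    obtain ⟨p, e, A, _, _, f, π, a, _, _, _, hk, _⟩ := hG ⟨0, hl⟩
    have h2 := Finset.single_le_sum (f := k) (fun i _ => Nat.zero_le _)
      (Finset.mem_univ (⟨0, hl⟩ : Fin l))
    exact lt_of_lt_of_le hk h2
  have h2 : (2 * (∑ j, k j) + 2) / 2 = (∑ j, k j) + 1 := by omega
  intro W _ _ H f hom inj
  have h3 := hLD.lift H f hom inj
  rw [← h2] at h3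
  exact ⟨la_le h3, fun hreg => la_eq_of_cov (by omega) hreg h3⟩

/-- The layers of a Cayley graph. -/
theorem cayley {Γ A : Type} [Group Γ] [Finite Γ] [AddCommGroup A] [Finite A] (S0 : Set Γ)
    (X : SimpleGraph Γ) (φ : Γ → A) (D : Finset ℕ) (lam : ℕ → ℝ)
    (hX : ∀ g h, X.Adj g h ↔ g⁻¹ * h ∈ S0) (hne : S0.Nonempty)
    (hφ : ∀ g h, φ (g * h) = φ g + φ h)
    (hord : ∀ s ∈ S0, ∃ p e : ℕ, p.Prime ∧ Odd p ∧ 1 ≤ e ∧ addOrderOf (φ s) = p ^ e)
    (hD : ∀ N, N ∈ D ↔ ∃ s ∈ S0, addOrderOf (φ s) = N)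
    (hlam : ∀ (p e r : ℕ) (U : AddSubgroup A), p.Prime → 1 ≤ e → p ^ e ∈ D → 1 ≤ r →
        (∀ u ∈ U, p • u = 0) → Nat.card U = p ^ r →
        ({s | s ∈ S0 ∧ addOrderOf (φ s) = p ^ e ∧ p ^ (e - 1) • φ s ∈ U}.ncard : ℝ) +
          2 * ((r : ℝ) - 1) ^ 2 * ((p : ℝ) ^ e - 1) ≤ lam (p ^ e) * ((p : ℝ) ^ e) ^ r)
    (hsum : ∑ N ∈ D, lam N ≤ 1) :
    (∀ v, (X.neighborSet v).ncard = S0.ncard) ∧ la X = (S0.ncard + 2) / 2 ∧ Conj X S0.ncard := by
  classical
  have hΓ : Fintype Γ := Fintype.ofFinite Γ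
  have hfin : S0.Finite := Set.toFinite S0
  obtain ⟨S, rfl⟩ := hfin.exists_finset_coe
  rw [Set.ncard_coe_finset]
  have hS : S.Nonempty := by exact_mod_cast hne
  have hX' : ∀ v w, X.Adj v w ↔ v⁻¹ * w ∈ S := by
    intro v w
    rw [hX, Finset.mem_coe]
  have hinv : ∀ x ∈ S, x⁻¹ ∈ S := by
    intro x hx
    have h1 : X.Adj 1 x := (hX' 1 x).2 (by simpa using hx)
    have h2 := (hX' x 1).1 h1.symm
    simpa using h2
  have hφ1 : φ 1 = 0 := by
    have := hφ 1 1
    rw [mul_one] at this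
    exact left_eq_add.1 this
  have hφi : ∀ g, φ g⁻¹ = - φ g := by
    intro g
    have := hφ g⁻¹ g
    rw [inv_mul_cancel, hφ1] at this
    exact eq_neg_of_add_eq_zero_left this.symm
  have hno : ∀ s ∈ S, s * s ≠ 1 := by
    intro s hs h
    obtain ⟨p, e, hp, hpo, he, hpe⟩ := hord s (by exact_mod_cast hs)
    have h1 : 2 • φ s = 0 := by rw [two_smul, ← hφ, h, hφ1]
    have h2 := addOrderOf_dvd_of_nsmul_eq_zero h1
    rw [hpe] at h2
    have h3 : Odd (p ^ e) := hpo.pow
    rcases (Nat.dvd_prime Nat.prime_two).1 h2 with h4 | h4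
    · have h5 : 1 < p ^ e := Nat.one_lt_pow (by omega) hp.one_lt
      omega
    · rw [h4] at h3
      exact absurd h3 (by decide)
  -- the part of `S` of order `N`
  have hpart : ∀ N : D, ∃ (k : ℕ) (G : SimpleGraph Γ),
      (∀ g h, G.Adj g h ↔ g⁻¹ * h ∈ S.filter fun s => addOrderOf (φ s) = N) ∧
      (S.filter fun s => addOrderOf (φ s) = (N : ℕ)).card = 2 * k ∧ Layer G k (lam N) := by
    rintro ⟨N, hN⟩
    obtain ⟨s0, hs0, hsN⟩ := (hD N).1 hN
    obtain ⟨p, e, hp, hpo, he, hpe⟩ := hord s0 hs0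
    rw [hpe] at hsN
    subst hsN
    obtain ⟨T, hTS, hT1, hT2, _⟩ := halve (S.filter fun s => addOrderOf (φ s) = p ^ e)
      (by
        intro s hs
        rw [Finset.mem_filter] at hs ⊢
        exact ⟨hinv _ hs.1, by rw [hφi, addOrderOf_neg]; exact hs.2⟩)
      (fun s hs => hno s (Finset.mem_filter.1 hs).1)
    obtain ⟨m, hm⟩ : ∃ m, m = T.card := ⟨_, rfl⟩
    have eq : Fin m ≃ T := by
      rw [hm]
      exact (Finset.equivFin _).symm
    have hTo : ∀ i : Fin m, addOrderOf (φ (eq i)) = p ^ e := fun i =>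
      (Finset.mem_filter.1 (hTS (eq i).2)).2
    have hTi : ∀ t ∈ T, t⁻¹ ∉ T := by
      intro t ht hti
      -- counting
      have h1 : (S.filter fun s => addOrderOf (φ s) = p ^ e) ⊆
          T ∪ (T.erase t).image (fun x => x⁻¹) := by
        intro s hs
        rw [Finset.mem_union]
        rcases hT1 s hs with h | h
        · exact Or.inl h
        · by_cases hst : s⁻¹ = t
          · left
            rw [← hst, inv_inv] at hti
            exact hti
          · exact Or.inr (Finset.mem_image.2 ⟨s⁻¹, Finset.mem_erase.2 ⟨hst, h⟩, inv_inv s⟩)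
      have h2 := Finset.card_le_card h1
      have h3 := Finset.card_union_le T ((T.erase t).image (fun x => x⁻¹))
      have h4 : ((T.erase t).image (fun x => x⁻¹)).card ≤ (T.erase t).card :=
        Finset.card_image_le
      rw [Finset.card_erase_of_mem ht] at h4
      have h5 : 0 < T.card := Finset.card_pos.2 ⟨t, ht⟩
      omega
    obtain ⟨G, hG⟩ : ∃ G : SimpleGraph Γ, ∀ g h, G.Adj g h ↔
        g⁻¹ * h ∈ S.filter fun s => addOrderOf (φ s) = p ^ e := by
      refine ⟨{ Adj := fun g h => g⁻¹ * h ∈ S.filter fun s => addOrderOf (φ s) = p ^ e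
                symm := ⟨?_⟩
                loopless := ⟨?_⟩ }, fun g h => Iff.rfl⟩
      · intro g h hgh
        rw [Finset.mem_filter] at hgh ⊢
        have h1 : h⁻¹ * g = (g⁻¹ * h)⁻¹ := by group
        rw [h1]
        exact ⟨hinv _ hgh.1, by rw [hφi, addOrderOf_neg]; exact hgh.2⟩
      · intro g hg
        rw [inv_mul_cancel, Finset.mem_filter] at hg
        exact hno 1 hg.1 (mul_one 1)
    refine ⟨m, G, hG, by rw [hT2, hm], p, e, A, inferInstance, inferInstance, φ,
      fun i => Equiv.mulRight ((eq i : T) : Γ), fun i => φ (eq i), hp, hpo, he, ?_, hTo, ?_, ?_,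
      ?_⟩
    · have h1 : 0 < (S.filter fun s => addOrderOf (φ s) = p ^ e).card :=
        Finset.card_pos.2 ⟨s0, Finset.mem_filter.2 ⟨by exact_mod_cast hs0, hpe⟩⟩
      omega
    · intro i x
      rw [Equiv.coe_mulRight, hφ]
    · intro x y
      rw [hG]
      constructor
      · intro h
        rcases hT1 _ h with h1 | h1
        · refine ⟨eq.symm ⟨_, h1⟩, Or.inl ?_⟩
          rw [Equiv.coe_mulRight, Equiv.apply_symm_apply]
          simp
        · refine ⟨eq.symm ⟨_, h1⟩, Or.inr ?_⟩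
          rw [Equiv.coe_mulRight, Equiv.apply_symm_apply]
          simp
      · rintro ⟨i, h1 | h1⟩
        · rw [h1, Equiv.coe_mulRight, inv_mul_cancel_left]
          exact hTS (eq i).2
        · rw [Equiv.coe_mulRight] at h1
          have h2 : x⁻¹ * y = ((eq i : T) : Γ)⁻¹ := by
            rw [h1]; group
          rw [h2]
          have h3 := Finset.mem_filter.1 (hTS (eq i).2)
          rw [Finset.mem_filter]
          exact ⟨hinv _ h3.1, by rw [hφi, addOrderOf_neg]; exact h3.2⟩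
    · intro U r hr hU hUc
      have h1 := hlam p e r U hp he hN hr hU hUc
      have h2 : 2 * {i : Fin m | p ^ (e - 1) • φ (eq i) ∈ U}.ncard ≤
          {s | s ∈ (S : Set Γ) ∧ addOrderOf (φ s) = p ^ e ∧ p ^ (e - 1) • φ s ∈ U}.ncard := by
        have h3 : {s | s ∈ (S : Set Γ) ∧ addOrderOf (φ s) = p ^ e ∧ p ^ (e - 1) • φ s ∈ U} ⊇
            ((fun i : Fin m => ((eq i : T) : Γ)) '' {i : Fin m | p ^ (e - 1) • φ (eq i) ∈ U}) ∪
            ((fun i : Fin m => ((eq i : T) : Γ)⁻¹) ''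
              {i : Fin m | p ^ (e - 1) • φ (eq i) ∈ U}) := by
          rintro s (⟨i, hi, rfl⟩ | ⟨i, hi, rfl⟩)
          · exact ⟨(Finset.mem_filter.1 (hTS (eq i).2)).1, hTo i, hi⟩
          · refine ⟨hinv _ (Finset.mem_filter.1 (hTS (eq i).2)).1, ?_, ?_⟩
            · show addOrderOf (φ (((eq i : T) : Γ)⁻¹)) = _
              rw [hφi, addOrderOf_neg]
              exact hTo i
            · show p ^ (e - 1) • φ (((eq i : T) : Γ)⁻¹) ∈ U
              rw [hφi, smul_neg]
              exact neg_mem hi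
        have h4 := Set.ncard_le_ncard h3 (Set.toFinite _)
        have hinj : Function.Injective (fun i : Fin m => ((eq i : T) : Γ)) :=
          fun i j h => eq.injective (Subtype.ext h)
        have hinj' : Function.Injective (fun i : Fin m => ((eq i : T) : Γ)⁻¹) :=
          fun i j h => hinj (inv_injective h)
        rw [Set.ncard_union_eq (by
          rw [Set.disjoint_left]
          rintro _ ⟨i, _, rfl⟩ ⟨j, _, h5⟩
          apply hTi _ (eq j).2
          have h6 : ((eq j : T) : Γ)⁻¹ = ((eq i : T) : Γ) := h5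
          rw [h6]
          exact (eq i).2) (Set.toFinite _) (Set.toFinite _),
          Set.ncard_image_of_injective _ hinj, Set.ncard_image_of_injective _ hinj'] at h4
        omega
      have h3 : 2 * ({i : Fin m | p ^ (e - 1) • φ (eq i) ∈ U}.ncard : ℝ) ≤
          ({s | s ∈ (S : Set Γ) ∧ addOrderOf (φ s) = p ^ e ∧
            p ^ (e - 1) • φ s ∈ U}.ncard : ℝ) := by exact_mod_cast h2
      linarith
  choose k G hG hk hL using hpart
  have eD : Fin D.card ≃ D := (Finset.equivFin D).symm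
  have hDpos : 1 ≤ D.card := by
    obtain ⟨s, hs⟩ := hne
    exact Finset.card_pos.2 ⟨_, (hD _).2 ⟨s, hs, rfl⟩⟩
  have hmain := layers X D.card hDpos (fun j => G (eD j)) (fun j => k (eD j))
    (fun j => lam (eD j)) (fun j => hL _) (by
      rw [Equiv.sum_comp eD (fun N : D => lam N), Finset.sum_coe_sort D lam]
      exact hsum) (by
      ext g h
      rw [iSup_adj, hX']
      constructor
      · intro hs
        have h1 : addOrderOf (φ (g⁻¹ * h)) ∈ D := (hD _).2 ⟨_, by exact_mod_cast hs, rfl⟩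
        refine ⟨eD.symm ⟨_, h1⟩, ?_⟩
        rw [Equiv.apply_symm_apply]
        exact (hG _ _ _).2 (Finset.mem_filter.2 ⟨hs, rfl⟩)
      · rintro ⟨N, hN⟩
        exact (Finset.mem_filter.1 ((hG _ _ _).1 hN)).1)
  have hcard : 2 * ∑ j, k (eD j) = S.card := by
    rw [Equiv.sum_comp eD (fun N : D => k N)]
    rw [Finset.card_eq_sum_card_fiberwise (f := fun s => addOrderOf (φ s)) (t := D)
      fun s hs => (hD _).2 ⟨s, hs, rfl⟩]
    rw [Finset.mul_sum, ← Finset.sum_coe_sort D]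
    exact Finset.sum_congr rfl fun N _ => (hk N).symm
  rw [hcard] at hmain
  have hdeg := cay_deg S X hX'
  exact ⟨hdeg, (hmain Γ X id (fun a b h => h) (fun a b c _ _ h => h)).2 hdeg, hmain⟩

/-- (1) If a finite graph is the union of layers whose parameters `lam` have sum at most `1`, then
the linear arboricity conjecture holds for it and for its finite covers.
(2) Let `X` be the Cayley graph of a finite group `Γ` with nonempty connection set `S`, and `φ` a
homomorphism of `Γ` to a finite abelian group such that the `φ s`, `s ∈ S`, have odd prime power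
orders; `D` is the set of these orders. Suppose there are numbers `lam N` (`N ∈ D`) with sum at most
`1` such that for all `p ^ e ∈ D` and all subgroups `U` with `p ^ r` elements (`r ≥ 1`) all of order
`1` or `p`, the number of `s ∈ S` such that `φ s` has order `p ^ e` and `p ^ (e - 1) • φ s ∈ U`,
increased by `2 (r - 1) ^ 2 (p ^ e - 1)`, is at most `lam (p ^ e) * (p ^ e) ^ r`. Then the linear
arboricity conjecture holds for `X` and for all its finite covers.
(3) In particular, for an odd prime `p`, it holds if `φ : Γ → (ℤ/p) ^ n` is a homomorphism with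
`φ s ≠ 0` for `s ∈ S` and for each subspace `U` of dimension `r ≥ 1` the number of `s ∈ S` with
`φ s ∈ U`, increased by `2 (r - 1) ^ 2 (p - 1)`, is at most `|U|`. -/
theorem result :
    (∀ (V : Type) [Finite V] (X : SimpleGraph V) (l : ℕ), 1 ≤ l →
      ∀ (G : Fin l → SimpleGraph V) (k : Fin l → ℕ) (lam : Fin l → ℝ),
      (∀ j, Layer (G j) (k j) (lam j)) → ∑ j, lam j ≤ 1 → X = ⨆ j, G j →
      Conj X (2 * ∑ j, k j)) ∧
    (∀ (Γ A : Type) [Group Γ] [Finite Γ] [AddCommGroup A] [Finite A] (S : Set Γ)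
      (X : SimpleGraph Γ) (φ : Γ → A) (D : Finset ℕ) (lam : ℕ → ℝ),
      (∀ g h, X.Adj g h ↔ g⁻¹ * h ∈ S) → S.Nonempty → (∀ g h, φ (g * h) = φ g + φ h) →
      (∀ s ∈ S, ∃ p e : ℕ, p.Prime ∧ Odd p ∧ 1 ≤ e ∧ addOrderOf (φ s) = p ^ e) →
      (∀ N, N ∈ D ↔ ∃ s ∈ S, addOrderOf (φ s) = N) →
      (∀ (p e r : ℕ) (U : AddSubgroup A), p.Prime → 1 ≤ e → p ^ e ∈ D → 1 ≤ r →
        (∀ u ∈ U, p • u = 0) → Nat.card U = p ^ r →
        ({s | s ∈ S ∧ addOrderOf (φ s) = p ^ e ∧ p ^ (e - 1) • φ s ∈ U}.ncard : ℝ) +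
          2 * ((r : ℝ) - 1) ^ 2 * ((p : ℝ) ^ e - 1) ≤ lam (p ^ e) * ((p : ℝ) ^ e) ^ r) →
      ∑ N ∈ D, lam N ≤ 1 →
      (∀ v, (X.neighborSet v).ncard = S.ncard) ∧ la X = (S.ncard + 2) / 2 ∧ Conj X S.ncard) ∧
    (∀ (p n : ℕ), p.Prime → Odd p → ∀ (Γ : Type) [Group Γ] [Finite Γ] (S : Set Γ)
      (X : SimpleGraph Γ) (φ : Γ → Fin n → ZMod p),
      (∀ g h, X.Adj g h ↔ g⁻¹ * h ∈ S) → S.Nonempty → (∀ g h, φ (g * h) = φ g + φ h) →
      (∀ s ∈ S, φ s ≠ 0) →
      (∀ (U : AddSubgroup (Fin n → ZMod p)) (r : ℕ), 1 ≤ r → Nat.card U = p ^ r →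
        {s | s ∈ S ∧ φ s ∈ U}.ncard + 2 * (r - 1) ^ 2 * (p - 1) ≤ p ^ r) →
      (∀ v, (X.neighborSet v).ncard = S.ncard) ∧ la X = (S.ncard + 2) / 2 ∧ Conj X S.ncard) := by
  refine ⟨fun V _ X l hl G k lam hG hlam hX => layers X l hl G k lam hG hlam hX,
    fun Γ A _ _ _ _ S X φ D lam h1 h2 h3 h4 h5 h6 h7 =>
      cayley S X φ D lam h1 h2 h3 h4 h5 h6 h7, ?_⟩
  intro p n hp hpo Γ _ _ S X φ hX hS hφ h0 hU
  have hfact : Fact p.Prime := ⟨hp⟩
  have hp0 : ∀ s : Fin n → ZMod p, p • s = 0 := by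
    intro s
    funext i
    rw [Pi.smul_apply, nsmul_eq_mul, ZMod.natCast_self, zero_mul, Pi.zero_apply]
  have hord : ∀ s ∈ S, addOrderOf (φ s) = p := fun s hs =>
    addOrderOf_eq_prime (hp0 _) (h0 s hs)
  refine cayley S X φ {p} (fun _ => 1) hX hS hφ (fun s hs => ⟨p, 1, hp, hpo, le_rfl, by
    rw [hord s hs, pow_one]⟩) ?_ ?_ (by simp)
  · intro N
    rw [Finset.mem_singleton]
    constructor
    · rintro rfl
      obtain ⟨s, hs⟩ := hS
      exact ⟨s, hs, hord s hs⟩
    · rintro ⟨s, hs, rfl⟩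
      exact hord s hs
  · intro q e r U hq he hqe hr _ hUc
    rw [Finset.mem_singleton] at hqe
    have he1 : e = 1 := by
      have h1 : (q ^ e).Prime := by rw [hqe]; exact hp
      exact h1.eq_one_of_pow
    subst he1
    rw [pow_one] at hqe
    subst hqe
    have hset : {s | s ∈ S ∧ addOrderOf (φ s) = q ^ 1 ∧ q ^ (1 - 1) • φ s ∈ U} =
        {s | s ∈ S ∧ φ s ∈ U} := by
      ext s
      constructor
      · rintro ⟨h1, _, h3⟩
        rw [Nat.sub_self, pow_zero, one_smul] at h3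
        exact ⟨h1, h3⟩
      · rintro ⟨h1, h3⟩
        refine ⟨h1, by rw [hord s h1, pow_one], ?_⟩
        rw [Nat.sub_self, pow_zero, one_smul]
        exact h3
    rw [hset, pow_one, one_mul]
    have h3 := hU U r hr hUc
    have h4 : (({s | s ∈ S ∧ φ s ∈ U}.ncard + 2 * (r - 1) ^ 2 * (q - 1) : ℕ) : ℝ) ≤
        ((q ^ r : ℕ) : ℝ) := by exact_mod_cast h3
    push_cast [Nat.cast_sub (show 1 ≤ r by omega), Nat.cast_sub hq.one_le] at h4
    exact h4

end Pool.Agent.Results.MP_0a041d_co.AbelianQuotients
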