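import Pool.Agent.T9h44.LA.Layer2
import Pool.Agent.T9h44.LA.LoadT
import Pool.Agent.W111.LAR.Cay
import Pool.Agent.W111.LAR.Top

set_option autoImplicit false

/-!
# Linear arboricity of Cayley graphs of elementary abelian groups

`H931R3.LA.la G` is the linear arboricity (the same expression as in the frozen statement S07085).
-/

namespace Pool.Agent.Results.MP_0a041d_co.ElementaryAbelian

open SimpleGraph H931R3.LA Pool.Agent.W111.LAR Pool.Agent.TH486.LAC

/-- Every finite graph with a locally injective homomorphism to `X` has linear arboricity at most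
`m`. -/
def Covered {V : Type} (X : SimpleGraph V) (m : ℕ) : Prop :=
  ∀ (W : Type) [Finite W] [Nonempty W] (G : SimpleGraph W) (f : W → V),
    (∀ a b, G.Adj a b → X.Adj (f a) (f b)) →
    (∀ a b c, G.Adj a b → G.Adj a c → f b = f c → b = c) → la G ≤ m

/-- The linear arboricity conjecture for the finite covers of `X`, if `X` is `d`-regular: every
finite graph with a locally injective homomorphism to `X` has linear arboricity at most
`(d + 2) / 2`, with equality if it is `d`-regular. -/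
def Conj {V : Type} (X : SimpleGraph V) (d : ℕ) : Prop :=
  ∀ (W : Type) [Finite W] [Nonempty W] (G : SimpleGraph W) (f : W → V),
    (∀ a b, G.Adj a b → X.Adj (f a) (f b)) →
    (∀ a b c, G.Adj a b → G.Adj a c → f b = f c → b = c) →
    la G ≤ (d + 2) / 2 ∧ ((∀ a, (G.neighborSet a).ncard = d) → la G = (d + 2) / 2)

/-- The edges of `G` are the pairs `{x, π i x}` for `k ≥ 1` permutations `π i` of the vertices such
that, for a map `f` of the vertices to a finite abelian group `A`, `f (π i x) = f x + a i` with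
elements `a i` of order `N = p ^ e`, `p` an odd prime; for each subgroup `U` of `A` with `p U = 0`
and `|U| = p ^ r`, `r ≥ 1`, and `w` the number of the `i` with `p ^ (e - 1) • a i ∈ U`, either
`2 w + 2 (r - 1) ^ 2 (N - 1) ≤ lam * N ^ r`, or `2 w ≤ lam * N ^ r` and `w + r < k`. -/
def Layer {W : Type} (G : SimpleGraph W) (k : ℕ) (lam : ℝ) : Prop :=
  ∃ (p e : ℕ) (A : Type) (_ : AddCommGroup A) (_ : Finite A) (f : W → A)
    (π : Fin k → Equiv.Perm W) (a : Fin k → A), p.Prime ∧ Odd p ∧ 1 ≤ e ∧ 1 ≤ k ∧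
    (∀ i, addOrderOf (a i) = p ^ e) ∧ (∀ i x, f (π i x) = f x + a i) ∧
    (∀ x y, G.Adj x y ↔ ∃ i, y = π i x ∨ x = π i y) ∧
    ∀ (U : AddSubgroup A) (r : ℕ), 1 ≤ r → (∀ u ∈ U, p • u = 0) → Nat.card U = p ^ r →
      2 * ({i | p ^ (e - 1) • a i ∈ U}.ncard : ℝ) + 2 * ((r : ℝ) - 1) ^ 2 * ((p : ℝ) ^ e - 1) ≤
        lam * ((p : ℝ) ^ e) ^ r ∨
      (2 * ({i | p ^ (e - 1) • a i ∈ U}.ncard : ℝ) ≤ lam * ((p : ℝ) ^ e) ^ r ∧
        {i | p ^ (e - 1) • a i ∈ U}.ncard + r < k)

theorem layers {V : Type} [Finite V] (X : SimpleGraph V) (l : ℕ) (hl : 1 ≤ l)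
    (G : Fin l → SimpleGraph V) (k : Fin l → ℕ) (lam : Fin l → ℝ)
    (hG : ∀ j, Layer (G j) (k j) (lam j)) (t : ℕ) (ht : 1 ≤ t) (hlam : ∑ j, lam j ≤ t)
    (hX : X = ⨆ j, G j) :
    Covered X (∑ j, k j + t) ∧ (t = 1 → Conj X (2 * ∑ j, k j)) := by
  have h1 : ∀ j, T9h44.LA.LDL (G j) (k j) (lam j) := by
    intro j
    obtain ⟨p, e, A, _, _, f, π, a, hp, hpo, he, hk, hord, hf, hG, hU⟩ := hG j
    exact T9h44.LA.layer_ldl2 hp hpo he hk f π a hord hf (lam j) hU (G j) hG
  have hLD : T9h44.LA.LDL X (∑ j, k j) (∑ j, lam j) := by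
    rw [hX]
    exact T9h44.LA.LDL.iSup G k lam h1
  have hpos : 0 < ∑ j, k j := by
    obtain ⟨p, e, A, _, _, f, π, a, _, _, _, hk, _⟩ := hG ⟨0, hl⟩
    have h2 := Finset.single_le_sum (f := k) (fun i _ => Nat.zero_le _)
      (Finset.mem_univ (⟨0, hl⟩ : Fin l))
    exact lt_of_lt_of_le hk h2
  refine ⟨?_, ?_⟩
  · intro W _ _ H f hom inj
    exact la_le (hLD.lift_t t ht hlam H f hom inj)
  · rintro rfl
    have h2 : (2 * (∑ j, k j) + 2) / 2 = (∑ j, k j) + 1 := by omega
    intro W _ _ H f hom inj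
    have h3 := hLD.lift_t 1 le_rfl hlam H f hom inj
    rw [← h2] at h3
    exact ⟨la_le h3, fun hreg => la_eq_of_cov (by omega) hreg h3⟩

/-- The layers of a Cayley graph. -/
theorem cayley {Γ A : Type} [Group Γ] [Finite Γ] [AddCommGroup A] [Finite A] (S0 : Set Γ)
    (X : SimpleGraph Γ) (φ : Γ → A) (D : Finset ℕ) (lam : ℕ → ℝ)
    (hX : ∀ g h, X.Adj g h ↔ g⁻¹ * h ∈ S0) (hne : S0.Nonempty)
    (hφ : ∀ g h, φ (g * h) = φ g + φ h)
    (hord : ∀ s ∈ S0, ∃ p e : ℕ, p.Prime ∧ Odd p ∧ 1 ≤ e ∧ addOrderOf (φ s) = p ^ e)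
    (hD : ∀ N, N ∈ D ↔ ∃ s ∈ S0, addOrderOf (φ s) = N)
    (hlam : ∀ (p e r : ℕ) (U : AddSubgroup A), p.Prime → 1 ≤ e → p ^ e ∈ D → 1 ≤ r →
        (∀ u ∈ U, p • u = 0) → Nat.card U = p ^ r →
        ({s | s ∈ S0 ∧ addOrderOf (φ s) = p ^ e ∧ p ^ (e - 1) • φ s ∈ U}.ncard : ℝ) +
          2 * ((r : ℝ) - 1) ^ 2 * ((p : ℝ) ^ e - 1) ≤ lam (p ^ e) * ((p : ℝ) ^ e) ^ r ∨
        (({s | s ∈ S0 ∧ addOrderOf (φ s) = p ^ e ∧ p ^ (e - 1) • φ s ∈ U}.ncard : ℝ) ≤
            lam (p ^ e) * ((p : ℝ) ^ e) ^ r ∧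
          {s | s ∈ S0 ∧ addOrderOf (φ s) = p ^ e ∧ p ^ (e - 1) • φ s ∈ U}.ncard + 2 * r <
            {s | s ∈ S0 ∧ addOrderOf (φ s) = p ^ e}.ncard))
    (t : ℕ) (ht : 1 ≤ t) (hsum : ∑ N ∈ D, lam N ≤ t) :
    (∀ v, (X.neighborSet v).ncard = S0.ncard) ∧ Covered X (S0.ncard / 2 + t) ∧
      (t = 1 → la X = (S0.ncard + 2) / 2 ∧ Conj X S0.ncard) := by
  classical
  have hΓ : Fintype Γ := Fintype.ofFinite Γ
  have hfin : S0.Finite := Set.toFinite S0
  obtain ⟨S, rfl⟩ := hfin.exists_finset_coe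
  rw [Set.ncard_coe_finset]
  have hS : S.Nonempty := by exact_mod_cast hne
  have hX' : ∀ v w, X.Adj v w ↔ v⁻¹ * w ∈ S := by
    intro v w
    rw [hX, Finset.mem_coe]
  have hinv : ∀ x ∈ S, x⁻¹ ∈ S := by
    intro x hx
    have h1 : X.Adj 1 x := (hX' 1 x).2 (by simpa using hx)
    have h2 := (hX' x 1).1 h1.symm
    simpa using h2
  have hφ1 : φ 1 = 0 := by
    have := hφ 1 1
    rw [mul_one] at this
    exact left_eq_add.1 this
  have hφi : ∀ g, φ g⁻¹ = - φ g := by
    intro g
    have := hφ g⁻¹ g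
    rw [inv_mul_cancel, hφ1] at this
    exact eq_neg_of_add_eq_zero_left this.symm
  have hno : ∀ s ∈ S, s * s ≠ 1 := by
    intro s hs h
    obtain ⟨p, e, hp, hpo, he, hpe⟩ := hord s (by exact_mod_cast hs)
    have h1 : 2 • φ s = 0 := by rw [two_smul, ← hφ, h, hφ1]
    have h2 := addOrderOf_dvd_of_nsmul_eq_zero h1
    rw [hpe] at h2
    have h3 : Odd (p ^ e) := hpo.pow
    rcases (Nat.dvd_prime Nat.prime_two).1 h2 with h4 | h4
    · have h5 : 1 < p ^ e := Nat.one_lt_pow (by omega) hp.one_lt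
      omega
    · rw [h4] at h3
      exact absurd h3 (by decide)
  -- the part of `S` of order `N`
  have hpart : ∀ N : D, ∃ (k : ℕ) (G : SimpleGraph Γ),
      (∀ g h, G.Adj g h ↔ g⁻¹ * h ∈ S.filter fun s => addOrderOf (φ s) = N) ∧
      (S.filter fun s => addOrderOf (φ s) = (N : ℕ)).card = 2 * k ∧ Layer G k (lam N) := by
    rintro ⟨N, hN⟩
    obtain ⟨s0, hs0, hsN⟩ := (hD N).1 hN
    obtain ⟨p, e, hp, hpo, he, hpe⟩ := hord s0 hs0
    rw [hpe] at hsN
    subst hsN
    obtain ⟨T, hTS, hT1, hT2, _⟩ := halve (S.filter fun s => addOrderOf (φ s) = p ^ e)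
      (by
        intro s hs
        rw [Finset.mem_filter] at hs ⊢
        exact ⟨hinv _ hs.1, by rw [hφi, addOrderOf_neg]; exact hs.2⟩)
      (fun s hs => hno s (Finset.mem_filter.1 hs).1)
    obtain ⟨m, hm⟩ : ∃ m, m = T.card := ⟨_, rfl⟩
    have eq : Fin m ≃ T := by
      rw [hm]
      exact (Finset.equivFin _).symm
    have hTo : ∀ i : Fin m, addOrderOf (φ (eq i)) = p ^ e := fun i =>
      (Finset.mem_filter.1 (hTS (eq i).2)).2
    have hTi : ∀ t ∈ T, t⁻¹ ∉ T := by
      intro t ht hti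
      -- counting
      have h1 : (S.filter fun s => addOrderOf (φ s) = p ^ e) ⊆
          T ∪ (T.erase t).image (fun x => x⁻¹) := by
        intro s hs
        rw [Finset.mem_union]
        rcases hT1 s hs with h | h
        · exact Or.inl h
        · by_cases hst : s⁻¹ = t
          · left
            rw [← hst, inv_inv] at hti
            exact hti
          · exact Or.inr (Finset.mem_image.2 ⟨s⁻¹, Finset.mem_erase.2 ⟨hst, h⟩, inv_inv s⟩)
      have h2 := Finset.card_le_card h1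
      have h3 := Finset.card_union_le T ((T.erase t).image (fun x => x⁻¹))
      have h4 : ((T.erase t).image (fun x => x⁻¹)).card ≤ (T.erase t).card :=
        Finset.card_image_le
      rw [Finset.card_erase_of_mem ht] at h4
      have h5 : 0 < T.card := Finset.card_pos.2 ⟨t, ht⟩
      omega
    obtain ⟨G, hG⟩ : ∃ G : SimpleGraph Γ, ∀ g h, G.Adj g h ↔
        g⁻¹ * h ∈ S.filter fun s => addOrderOf (φ s) = p ^ e := by
      refine ⟨{ Adj := fun g h => g⁻¹ * h ∈ S.filter fun s => addOrderOf (φ s) = p ^ e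
                symm := ⟨?_⟩
                loopless := ⟨?_⟩ }, fun g h => Iff.rfl⟩
      · intro g h hgh
        rw [Finset.mem_filter] at hgh ⊢
        have h1 : h⁻¹ * g = (g⁻¹ * h)⁻¹ := by group
        rw [h1]
        exact ⟨hinv _ hgh.1, by rw [hφi, addOrderOf_neg]; exact hgh.2⟩
      · intro g hg
        rw [inv_mul_cancel, Finset.mem_filter] at hg
        exact hno 1 hg.1 (mul_one 1)
    refine ⟨m, G, hG, by rw [hT2, hm], p, e, A, inferInstance, inferInstance, φ,
      fun i => Equiv.mulRight ((eq i : T) : Γ), fun i => φ (eq i), hp, hpo, he, ?_, hTo, ?_, ?_,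
      ?_⟩
    · have h1 : 0 < (S.filter fun s => addOrderOf (φ s) = p ^ e).card :=
        Finset.card_pos.2 ⟨s0, Finset.mem_filter.2 ⟨by exact_mod_cast hs0, hpe⟩⟩
      omega
    · intro i x
      rw [Equiv.coe_mulRight, hφ]
    · intro x y
      rw [hG]
      constructor
      · intro h
        rcases hT1 _ h with h1 | h1
        · refine ⟨eq.symm ⟨_, h1⟩, Or.inl ?_⟩
          rw [Equiv.coe_mulRight, Equiv.apply_symm_apply]
          simp
        · refine ⟨eq.symm ⟨_, h1⟩, Or.inr ?_⟩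
          rw [Equiv.coe_mulRight, Equiv.apply_symm_apply]
          simp
      · rintro ⟨i, h1 | h1⟩
        · rw [h1, Equiv.coe_mulRight, inv_mul_cancel_left]
          exact hTS (eq i).2
        · rw [Equiv.coe_mulRight] at h1
          have h2 : x⁻¹ * y = ((eq i : T) : Γ)⁻¹ := by
            rw [h1]; group
          rw [h2]
          have h3 := Finset.mem_filter.1 (hTS (eq i).2)
          rw [Finset.mem_filter]
          exact ⟨hinv _ h3.1, by rw [hφi, addOrderOf_neg]; exact h3.2⟩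
    · intro U r hr hU hUc
      have h1 := hlam p e r U hp he hN hr hU hUc
      have h2 : 2 * {i : Fin m | p ^ (e - 1) • φ (eq i) ∈ U}.ncard ≤
          {s | s ∈ (S : Set Γ) ∧ addOrderOf (φ s) = p ^ e ∧ p ^ (e - 1) • φ s ∈ U}.ncard := by
        have h3 : {s | s ∈ (S : Set Γ) ∧ addOrderOf (φ s) = p ^ e ∧ p ^ (e - 1) • φ s ∈ U} ⊇
            ((fun i : Fin m => ((eq i : T) : Γ)) '' {i : Fin m | p ^ (e - 1) • φ (eq i) ∈ U}) ∪
            ((fun i : Fin m => ((eq i : T) : Γ)⁻¹) ''
              {i : Fin m | p ^ (e - 1) • φ (eq i) ∈ U}) := by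
          rintro s (⟨i, hi, rfl⟩ | ⟨i, hi, rfl⟩)
          · exact ⟨(Finset.mem_filter.1 (hTS (eq i).2)).1, hTo i, hi⟩
          · refine ⟨hinv _ (Finset.mem_filter.1 (hTS (eq i).2)).1, ?_, ?_⟩
            · show addOrderOf (φ (((eq i : T) : Γ)⁻¹)) = _
              rw [hφi, addOrderOf_neg]
              exact hTo i
            · show p ^ (e - 1) • φ (((eq i : T) : Γ)⁻¹) ∈ U
              rw [hφi, smul_neg]
              exact neg_mem hi
        have h4 := Set.ncard_le_ncard h3 (Set.toFinite _)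
        have hinj : Function.Injective (fun i : Fin m => ((eq i : T) : Γ)) :=
          fun i j h => eq.injective (Subtype.ext h)
        have hinj' : Function.Injective (fun i : Fin m => ((eq i : T) : Γ)⁻¹) :=
          fun i j h => hinj (inv_injective h)
        rw [Set.ncard_union_eq (by
          rw [Set.disjoint_left]
          rintro _ ⟨i, _, rfl⟩ ⟨j, _, h5⟩
          apply hTi _ (eq j).2
          have h6 : ((eq j : T) : Γ)⁻¹ = ((eq i : T) : Γ) := h5
          rw [h6]
          exact (eq i).2) (Set.toFinite _) (Set.toFinite _),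
          Set.ncard_image_of_injective _ hinj, Set.ncard_image_of_injective _ hinj'] at h4
        omega
      have h3 : 2 * ({i : Fin m | p ^ (e - 1) • φ (eq i) ∈ U}.ncard : ℝ) ≤
          ({s | s ∈ (S : Set Γ) ∧ addOrderOf (φ s) = p ^ e ∧
            p ^ (e - 1) • φ s ∈ U}.ncard : ℝ) := by exact_mod_cast h2
      rcases h1 with h1 | ⟨h1, h1'⟩
      · left
        linarith
      · right
        refine ⟨by linarith, ?_⟩
        have h7 : {s | s ∈ (S : Set Γ) ∧ addOrderOf (φ s) = p ^ e}.ncard = 2 * m := by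
          rw [hm, ← hT2, ← Set.ncard_coe_finset]
          congr 1
          ext s
          simp
        show {i : Fin m | p ^ (e - 1) • φ (eq i) ∈ U}.ncard + r < m
        omega
  choose k G hG hk hL using hpart
  have eD : Fin D.card ≃ D := (Finset.equivFin D).symm
  have hDpos : 1 ≤ D.card := by
    obtain ⟨s, hs⟩ := hne
    exact Finset.card_pos.2 ⟨_, (hD _).2 ⟨s, hs, rfl⟩⟩
  have hmain := layers X D.card hDpos (fun j => G (eD j)) (fun j => k (eD j))
    (fun j => lam (eD j)) (fun j => hL _) t ht (by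
      rw [Equiv.sum_comp eD (fun N : D => lam N), Finset.sum_coe_sort D lam]
      exact hsum) (by
      ext g h
      rw [iSup_adj, hX']
      constructor
      · intro hs
        have h1 : addOrderOf (φ (g⁻¹ * h)) ∈ D := (hD _).2 ⟨_, by exact_mod_cast hs, rfl⟩
        refine ⟨eD.symm ⟨_, h1⟩, ?_⟩
        rw [Equiv.apply_symm_apply]
        exact (hG _ _ _).2 (Finset.mem_filter.2 ⟨hs, rfl⟩)
      · rintro ⟨N, hN⟩
        exact (Finset.mem_filter.1 ((hG _ _ _).1 hN)).1)
  have hcard : 2 * ∑ j, k (eD j) = S.card := by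
    rw [Equiv.sum_comp eD (fun N : D => k N)]
    rw [Finset.card_eq_sum_card_fiberwise (f := fun s => addOrderOf (φ s)) (t := D)
      fun s hs => (hD _).2 ⟨s, hs, rfl⟩]
    rw [Finset.mul_sum, ← Finset.sum_coe_sort D]
    exact Finset.sum_congr rfl fun N _ => (hk N).symm
  rw [hcard] at hmain
  have hdeg := cay_deg S X hX'
  have h2 : ∑ j, k (eD j) = S.card / 2 := by omega
  rw [h2] at hmain
  refine ⟨hdeg, hmain.1, fun ht1 => ⟨?_, hmain.2 ht1⟩⟩
  exact (hmain.2 ht1 Γ X id (fun a b h => h) (fun a b c _ _ h => h)).2 hdeg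

/-- `2 (r - 1) ^ 2 (p - 1) ≤ p ^ r - p ^ (r - 1)` -/
theorem sq_le {p : ℕ} (hp : 3 ≤ p) {r : ℕ} (hr : 1 ≤ r) : 2 * (r - 1) ^ 2 ≤ p ^ (r - 1) := by
  obtain ⟨q, rfl⟩ : ∃ q, r = q + 1 := ⟨r - 1, by omega⟩
  rw [Nat.add_sub_cancel]
  have h3 : 2 * q ^ 2 ≤ 3 ^ q := by
    by_cases hq : q ≤ 3
    · interval_cases q <;> norm_num
    · have key : ∀ n : ℕ, 3 ≤ n → 2 * n ^ 2 ≤ 3 ^ n := by
        intro n hn
        induction n, hn using Nat.le_induction with
        | base => norm_num
        | succ n hn ih =>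
          rw [pow_succ 3 n]
          nlinarith
      exact key q (by omega)
  exact h3.trans (Nat.pow_le_pow_left hp q)

/-- (1) If a finite graph `X` is the union of layers whose parameters `lam` have sum at most `t ≥ 1`
and `k` is the sum of their parameters `k`, then all graphs with a locally injective homomorphism to
`X` have linear arboricity at most `k + t`; if `t = 1` the linear arboricity conjecture holds for
`X` and its finite covers.
(2) Let `X` be the Cayley graph of a finite group `Γ` with nonempty connection set `S`, and `φ` a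
homomorphism of `Γ` to a finite abelian group such that the `φ s`, `s ∈ S`, have odd prime power
orders; `D` is the set of these orders. Suppose there are numbers `lam N` (`N ∈ D`) with sum at most
`t ≥ 1` such that for all `N = p ^ e ∈ D` and all subgroups `U` with `p U = 0` and `p ^ r` elements
(`r ≥ 1`), and `w` the number of `s ∈ S` such that `φ s` has order `N` and `p ^ (e - 1) • φ s ∈ U`,
either `w + 2 (r - 1) ^ 2 (N - 1) ≤ lam N * N ^ r`, or `w ≤ lam N * N ^ r` and `φ s` has order `N`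
for more than `w + 2 r` elements `s ∈ S`. Then graphs with a locally injective homomorphism to `X`
have linear arboricity at most `|S| / 2 + t`; if `t = 1` the linear arboricity conjecture holds for
`X` and all its finite covers.
(3) If `φ : Γ → (ℤ/p) ^ n` is a homomorphism, `p` an odd prime, `φ s ≠ 0` for `s ∈ S` and `S` has at
most `M` elements in each fibre of `φ`, then graphs with a locally injective homomorphism to `X`
have linear arboricity at most `|S| / 2 + M + 1`.
(4) If moreover `φ` is injective on `S` (for example for `Γ = (ℤ/p) ^ n`, `φ = id`), the bound is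
`|S| / 2 + 2`, that is, one more than conjectured, and the linear arboricity conjecture holds for
`X` and all its finite covers unless there is a subspace `U` of some dimension `r ≥ 2` such that
`φ s ∉ U` for at most `2 r` elements `s` of `S` and `U` has less than `2 (r - 1) ^ 2 (p - 1)`
elements outside `φ S`. -/
theorem result :
    (∀ (V : Type) [Finite V] (X : SimpleGraph V) (l t : ℕ), 1 ≤ l → 1 ≤ t →
      ∀ (G : Fin l → SimpleGraph V) (k : Fin l → ℕ) (lam : Fin l → ℝ),
      (∀ j, Layer (G j) (k j) (lam j)) → ∑ j, lam j ≤ t → X = ⨆ j, G j →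
      Covered X (∑ j, k j + t) ∧ (t = 1 → Conj X (2 * ∑ j, k j))) ∧
    (∀ (Γ A : Type) [Group Γ] [Finite Γ] [AddCommGroup A] [Finite A] (S : Set Γ)
      (X : SimpleGraph Γ) (φ : Γ → A) (D : Finset ℕ) (lam : ℕ → ℝ) (t : ℕ), 1 ≤ t →
      (∀ g h, X.Adj g h ↔ g⁻¹ * h ∈ S) → S.Nonempty → (∀ g h, φ (g * h) = φ g + φ h) →
      (∀ s ∈ S, ∃ p e : ℕ, p.Prime ∧ Odd p ∧ 1 ≤ e ∧ addOrderOf (φ s) = p ^ e) →
      (∀ N, N ∈ D ↔ ∃ s ∈ S, addOrderOf (φ s) = N) →
      (∀ (p e r : ℕ) (U : AddSubgroup A), p.Prime → 1 ≤ e → p ^ e ∈ D → 1 ≤ r →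
        (∀ u ∈ U, p • u = 0) → Nat.card U = p ^ r →
        ({s | s ∈ S ∧ addOrderOf (φ s) = p ^ e ∧ p ^ (e - 1) • φ s ∈ U}.ncard : ℝ) +
          2 * ((r : ℝ) - 1) ^ 2 * ((p : ℝ) ^ e - 1) ≤ lam (p ^ e) * ((p : ℝ) ^ e) ^ r ∨
        (({s | s ∈ S ∧ addOrderOf (φ s) = p ^ e ∧ p ^ (e - 1) • φ s ∈ U}.ncard : ℝ) ≤
            lam (p ^ e) * ((p : ℝ) ^ e) ^ r ∧
          {s | s ∈ S ∧ addOrderOf (φ s) = p ^ e ∧ p ^ (e - 1) • φ s ∈ U}.ncard + 2 * r <
            {s | s ∈ S ∧ addOrderOf (φ s) = p ^ e}.ncard)) →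
      ∑ N ∈ D, lam N ≤ t →
      (∀ v, (X.neighborSet v).ncard = S.ncard) ∧ Covered X (S.ncard / 2 + t) ∧
        (t = 1 → la X = (S.ncard + 2) / 2 ∧ Conj X S.ncard)) ∧
    (∀ (p n : ℕ), p.Prime → Odd p → ∀ (Γ : Type) [Group Γ] [Finite Γ] (S : Set Γ)
      (X : SimpleGraph Γ) (φ : Γ → Fin n → ZMod p),
      (∀ g h, X.Adj g h ↔ g⁻¹ * h ∈ S) → S.Nonempty → (∀ g h, φ (g * h) = φ g + φ h) →
      (∀ s ∈ S, φ s ≠ 0) →
      (∀ M : ℕ, (∀ x, {s | s ∈ S ∧ φ s = x}.ncard ≤ M) → Covered X (S.ncard / 2 + (M + 1))) ∧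
      (Set.InjOn φ S → Covered X (S.ncard / 2 + 2) ∧
        ((¬ ∃ (U : AddSubgroup (Fin n → ZMod p)) (r : ℕ), 2 ≤ r ∧ Nat.card U = p ^ r ∧
            {s | s ∈ S ∧ φ s ∉ U}.ncard ≤ 2 * r ∧
            {u | u ∈ U ∧ u ∉ φ '' S}.ncard < 2 * (r - 1) ^ 2 * (p - 1)) →
          la X = (S.ncard + 2) / 2 ∧ Conj X S.ncard))) := by
  refine ⟨fun V _ X l t hl ht G k lam hG hlam hX => layers X l hl G k lam hG t ht hlam hX,
    fun Γ A _ _ _ _ S X φ D lam t ht h1 h2 h3 h4 h5 h6 h7 =>
      cayley S X φ D lam h1 h2 h3 h4 h5 h6 t ht h7, ?_⟩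
  intro p n hp hpo Γ _ _ S X φ hX hS hφ h0
  have hfact : Fact p.Prime := ⟨hp⟩
  have hp3 : 3 ≤ p := by
    have := hp.two_le
    obtain ⟨k, hk⟩ := hpo
    omega
  have hp0 : ∀ s : Fin n → ZMod p, p • s = 0 := by
    intro s
    funext i
    rw [Pi.smul_apply, nsmul_eq_mul, ZMod.natCast_self, zero_mul, Pi.zero_apply]
  have hord : ∀ s ∈ S, addOrderOf (φ s) = p := fun s hs =>
    addOrderOf_eq_prime (hp0 _) (h0 s hs)
  -- reduction of the general criterion
  have red : ∀ (lam : ℝ) (t : ℕ), 1 ≤ t → lam ≤ t →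
      (∀ (r : ℕ) (U : AddSubgroup (Fin n → ZMod p)), 1 ≤ r → Nat.card U = p ^ r →
        ({s | s ∈ S ∧ φ s ∈ U}.ncard : ℝ) + 2 * ((r : ℝ) - 1) ^ 2 * ((p : ℝ) - 1) ≤
          lam * (p : ℝ) ^ r ∨
        (({s | s ∈ S ∧ φ s ∈ U}.ncard : ℝ) ≤ lam * (p : ℝ) ^ r ∧
          {s | s ∈ S ∧ φ s ∈ U}.ncard + 2 * r < S.ncard)) →
      (∀ v, (X.neighborSet v).ncard = S.ncard) ∧ Covered X (S.ncard / 2 + t) ∧
        (t = 1 → la X = (S.ncard + 2) / 2 ∧ Conj X S.ncard) := by
    intro lam t ht hlt hU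
    refine cayley S X φ {p} (fun _ => lam) hX hS hφ (fun s hs => ⟨p, 1, hp, hpo, le_rfl, by
      rw [hord s hs, pow_one]⟩) ?_ ?_ t ht (by simpa using hlt)
    · intro N
      rw [Finset.mem_singleton]
      constructor
      · rintro rfl
        obtain ⟨s, hs⟩ := hS
        exact ⟨s, hs, hord s hs⟩
      · rintro ⟨s, hs, rfl⟩
        exact hord s hs
    · intro q e r U hq he hqe hr _ hUc
      rw [Finset.mem_singleton] at hqe
      have he1 : e = 1 := by
        have h1 : (q ^ e).Prime := by rw [hqe]; exact hp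
        exact h1.eq_one_of_pow
      subst he1
      rw [pow_one] at hqe
      subst hqe
      have hset : {s | s ∈ S ∧ addOrderOf (φ s) = q ^ 1 ∧ q ^ (1 - 1) • φ s ∈ U} =
          {s | s ∈ S ∧ φ s ∈ U} := by
        ext s
        constructor
        · rintro ⟨h1, _, h3⟩
          rw [Nat.sub_self, pow_zero, one_smul] at h3
          exact ⟨h1, h3⟩
        · rintro ⟨h1, h3⟩
          refine ⟨h1, by rw [hord s h1, pow_one], ?_⟩
          rw [Nat.sub_self, pow_zero, one_smul]
          exact h3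
      have hset2 : {s | s ∈ S ∧ addOrderOf (φ s) = q ^ 1} = S := by
        ext s
        constructor
        · rintro ⟨h1, _⟩
          exact h1
        · intro h1
          exact ⟨h1, by rw [hord s h1, pow_one]⟩
      rw [hset, hset2, pow_one]
      exact hU r U hr hUc
  -- the number of elements of `S` over a subspace
  have hcount : ∀ (M : ℕ), (∀ x, {s | s ∈ S ∧ φ s = x}.ncard ≤ M) →
      ∀ (r : ℕ) (U : AddSubgroup (Fin n → ZMod p)), Nat.card U = p ^ r →
      {s | s ∈ S ∧ φ s ∈ U}.ncard ≤ M * (p ^ r - 1) := by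
    classical
    intro M hM r U hUc
    have hfinU : (U : Set (Fin n → ZMod p)).Finite := Set.toFinite _
    have hU0 : ((hfinU.toFinset).erase 0).card = p ^ r - 1 := by
      rw [Finset.card_erase_of_mem (by rw [Set.Finite.mem_toFinset]; exact U.zero_mem),
        ← Set.ncard_eq_toFinset_card _ hfinU]
      congr 1
    have hfs : {s | s ∈ S ∧ φ s ∈ U}.Finite := Set.toFinite _
    rw [Set.ncard_eq_toFinset_card _ hfs, ← hU0]
    refine Finset.card_le_mul_card_image_of_maps_to (f := φ) ?_ M ?_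
    · intro s hs
      rw [Set.Finite.mem_toFinset] at hs
      rw [Finset.mem_erase, Set.Finite.mem_toFinset]
      exact ⟨h0 s hs.1, hs.2⟩
    · intro x _
      refine le_trans ?_ (hM x)
      rw [← Set.ncard_coe_finset]
      refine Set.ncard_le_ncard ?_ (Set.toFinite _)
      intro s hs
      rw [Finset.mem_coe, Finset.mem_filter, Set.Finite.mem_toFinset] at hs
      exact ⟨hs.1.1, hs.2⟩
  have hbig : ∀ (M : ℕ), 1 ≤ M → (∀ x, {s | s ∈ S ∧ φ s = x}.ncard ≤ M) →
      Covered X (S.ncard / 2 + (M + 1)) := by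
    intro M hM1 hM
    refine (red (M + 1) (M + 1) (by omega) (by push_cast; exact le_rfl) ?_).2.1
    intro r U hr hUc
    left
    have h1 := hcount M hM r U hUc
    have h2 := sq_le hp3 hr
    have h3 : 2 * (r - 1) ^ 2 * (p - 1) ≤ p ^ r := by
      calc 2 * (r - 1) ^ 2 * (p - 1) ≤ p ^ (r - 1) * p := Nat.mul_le_mul h2 (by omega)
        _ = p ^ r := by
          rw [← pow_succ]
          congr 1
          omega
    have h4 : M * (p ^ r - 1) + 2 * (r - 1) ^ 2 * (p - 1) ≤ (M + 1) * p ^ r := by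
      have h5 : M * (p ^ r - 1) ≤ M * p ^ r := Nat.mul_le_mul_left _ (by omega)
      have h6 : (M + 1) * p ^ r = M * p ^ r + p ^ r := by ring
      omega
    have h5 : {s | s ∈ S ∧ φ s ∈ U}.ncard + 2 * (r - 1) ^ 2 * (p - 1) ≤ (M + 1) * p ^ r := by
      omega
    have h6 : (({s | s ∈ S ∧ φ s ∈ U}.ncard + 2 * (r - 1) ^ 2 * (p - 1) : ℕ) : ℝ) ≤
        (((M + 1) * p ^ r : ℕ) : ℝ) := by exact_mod_cast h5
    push_cast [Nat.cast_sub (show 1 ≤ r by omega), Nat.cast_sub hp.one_le] at h6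
    exact h6
  refine ⟨?_, ?_⟩
  · intro M hM
    rcases Nat.eq_zero_or_pos M with h | h
    · exfalso
      obtain ⟨s, hs⟩ := hS
      have h1 := hM (φ s)
      rw [h, Nat.le_zero, Set.ncard_eq_zero (Set.toFinite _)] at h1
      have h2 : s ∈ {s' | s' ∈ S ∧ φ s' = φ s} := ⟨hs, rfl⟩
      rw [h1] at h2
      exact h2
    · exact hbig M h hM
  · intro hinj
    have hM : ∀ x, {s | s ∈ S ∧ φ s = x}.ncard ≤ 1 := by
      intro x
      rw [Set.ncard_le_one (Set.toFinite _)]
      rintro a ⟨ha, ha'⟩ b ⟨hb, hb'⟩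
      exact hinj ha hb (ha'.trans hb'.symm)
    refine ⟨hbig 1 le_rfl hM, ?_⟩
    intro hexc
    refine (red 1 1 le_rfl (by simp) ?_).2.2 rfl
    intro r U hr hUc
    have hc := hcount 1 hM r U hUc
    rw [one_mul] at hc
    have hpr : 1 ≤ p ^ r := Nat.one_le_pow _ _ (by omega)
    by_cases h1 : {s | s ∈ S ∧ φ s ∈ U}.ncard + 2 * (r - 1) ^ 2 * (p - 1) ≤ p ^ r
    · left
      have h6 : (({s | s ∈ S ∧ φ s ∈ U}.ncard + 2 * (r - 1) ^ 2 * (p - 1) : ℕ) : ℝ) ≤
          ((p ^ r : ℕ) : ℝ) := by exact_mod_cast h1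
      push_cast [Nat.cast_sub (show 1 ≤ r by omega), Nat.cast_sub hp.one_le] at h6
      rw [one_mul]
      exact h6
    · right
      push Not at h1
      have hr2 : 2 ≤ r := by
        by_contra h
        have hr1 : r = 1 := by omega
        rw [hr1] at h1 hc
        simp at h1
        rw [pow_one] at hc
        omega
      refine ⟨?_, ?_⟩
      · rw [one_mul]
        have : {s | s ∈ S ∧ φ s ∈ U}.ncard ≤ p ^ r := by omega
        exact_mod_cast this
      · by_contra h2
        push Not at h2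
        apply hexc
        refine ⟨U, r, hr2, hUc, ?_, ?_⟩
        · have h3 : S = {s | s ∈ S ∧ φ s ∈ U} ∪ {s | s ∈ S ∧ φ s ∉ U} := by
            ext s
            constructor
            · intro hs
              by_cases h : φ s ∈ U
              · exact Or.inl ⟨hs, h⟩
              · exact Or.inr ⟨hs, h⟩
            · rintro (h | h)
              · exact h.1
              · exact h.1
          have h4 : S.ncard = {s | s ∈ S ∧ φ s ∈ U}.ncard + {s | s ∈ S ∧ φ s ∉ U}.ncard := by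
            conv_lhs => rw [h3]
            refine Set.ncard_union_eq ?_ (Set.toFinite _) (Set.toFinite _)
            rw [Set.disjoint_left]
            rintro s ⟨_, h5⟩ ⟨_, h6⟩
            exact h6 h5
          omega
        · -- `U` is the union of the part in `φ S` and the rest
          have h3 : {u | u ∈ U ∧ u ∉ φ '' S}.ncard + {s | s ∈ S ∧ φ s ∈ U}.ncard = p ^ r := by
            have h5 : {s | s ∈ S ∧ φ s ∈ U}.ncard = {u | u ∈ U ∧ u ∈ φ '' S}.ncard := by
              rw [← Set.InjOn.ncard_image (s := {s | s ∈ S ∧ φ s ∈ U}) (f := φ)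
                (fun a ha b hb h => hinj ha.1 hb.1 h)]
              congr 1
              ext u
              constructor
              · rintro ⟨s, hs, rfl⟩
                exact ⟨hs.2, s, hs.1, rfl⟩
              · rintro ⟨hu, s, hs, rfl⟩
                exact ⟨s, ⟨hs, hu⟩, rfl⟩
            rw [h5, ← hUc]
            have h6 : (U : Set (Fin n → ZMod p)).ncard = Nat.card U := rfl
            rw [← h6]
            have h7 : (U : Set (Fin n → ZMod p)) =
                {u | u ∈ U ∧ u ∉ φ '' S} ∪ {u | u ∈ U ∧ u ∈ φ '' S} := by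
              ext u
              constructor
              · intro hu
                by_cases h : u ∈ φ '' S
                · exact Or.inr ⟨hu, h⟩
                · exact Or.inl ⟨hu, h⟩
              · rintro (h | h)
                · exact h.1
                · exact h.1
            conv_rhs => rw [h7]
            refine (Set.ncard_union_eq ?_ (Set.toFinite _) (Set.toFinite _)).symm
            rw [Set.disjoint_left]
            rintro s ⟨_, h5⟩ ⟨_, h6⟩
            exact h5 h6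
          omega

end Pool.Agent.Results.MP_0a041d_co.ElementaryAbelian
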