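import Pool.Agent.T9h44.LA.Haar
import Pool.Agent.W111.LAR.Cay2

set_option autoImplicit false

/-!
# Linear arboricity of Haar graphs and of bipartite Cayley graphs

`H931R3.LA.la G` is the linear arboricity (the same expression as in the frozen statement S07085).
-/

namespace Pool.Agent.Results.MP_0a041d_co.HaarGraphs

open SimpleGraph H931R3.LA Pool.Agent.W111.LAR Pool.Agent.TH486.LAC Pool.Agent.T9h44.LA

/-- `X` is `d`-regular and the linear arboricity conjecture holds for `X` and for its finite covers;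
more generally every finite graph with a locally injective homomorphism to `X` has linear
arboricity at most `(d + 2) / 2`. -/
def Conj {V : Type} (X : SimpleGraph V) (d : ℕ) : Prop :=
  (∀ v, (X.neighborSet v).ncard = d) ∧ la X = (d + 2) / 2 ∧
  ∀ (W : Type) [Finite W] [Nonempty W] (G : SimpleGraph W) (f : W → V),
    (∀ a b, G.Adj a b → X.Adj (f a) (f b)) →
    (∀ a b c, G.Adj a b → G.Adj a c → f b = f c → b = c) →
    la G ≤ (d + 2) / 2 ∧ ((∀ a, (G.neighborSet a).ncard = d) → la G = (d + 2) / 2)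

/-- `X` is the Haar graph of the group `Γ` and the set `A`: the bipartite graph with the vertices
`(g, false)` and `(g, true)` and the edges `{(g, false), (g * a, true)}`, `a ∈ A`. -/
def IsHaar {Γ : Type} [Group Γ] (A : Set Γ) (X : SimpleGraph (Γ × Bool)) : Prop :=
  (∀ g h, X.Adj (g, false) (h, true) ↔ g⁻¹ * h ∈ A) ∧ ∀ g h b, ¬ X.Adj (g, b) (h, b)

/-- `A` is the disjoint union of nonempty sets `B j` of even size, `B j` lies in a coset of the
cyclic group generated by `g j`, and there are numbers `lam j` of sum at most `1` such that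
`lam j = 1 / 2` or `|B j| ≤ 2 * lam j * p` for all prime factors `p` of the order of `g j`. -/
def EvenCosets {Γ : Type} [Group Γ] (A : Set Γ) : Prop :=
  ∃ (r : ℕ) (B : Fin r → Set Γ) (x g : Fin r → Γ) (lam : Fin r → ℝ),
    (∀ a, a ∈ A ↔ ∃ j, a ∈ B j) ∧ (∀ i j, i ≠ j → Disjoint (B i) (B j)) ∧
    (∀ j, (B j).Nonempty ∧ Even (B j).ncard) ∧ (∀ j, ∀ a ∈ B j, ∃ k : ℕ, a = x j * g j ^ k) ∧
    (∀ j, lam j = 1 / 2 ∨
      ∀ p : ℕ, p.Prime → p ∣ orderOf (g j) → ((B j).ncard : ℝ) ≤ 2 * lam j * p) ∧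
    ∑ j, lam j ≤ 1

/-- `A` is split into one element `a₀` and pairs `{a, σ a}` such that the order of `a⁻¹ * σ a` is at
least `3 |A| - 7`. -/
def OddPairs {Γ : Type} [Group Γ] (A : Set Γ) : Prop :=
  ∃ a₀ ∈ A, ∃ σ : Γ → Γ, ∀ a ∈ A, a ≠ a₀ → σ a ∈ A ∧ σ a ≠ a₀ ∧ σ (σ a) = a ∧ σ a ≠ a ∧
    3 * A.ncard ≤ orderOf (a⁻¹ * σ a) + 7

theorem even_haar {Γ : Type} [Group Γ] [Finite Γ] (A : Set Γ) (h : EvenCosets A) (X : SimpleGraph (Γ × Bool)) (hX : IsHaar A X) :
    LD X (A.ncard / 2) := by
  classical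
  obtain ⟨r, B, x, g, lam, hAB, hdis, hB, hx, hlam, hsum⟩ := h
  have hpair : ∀ j, ∃ (h : ℕ) (s t : Fin h → Γ), (B j).ncard = 2 * h ∧
      (∀ a, a ∈ B j ↔ ∃ i, a = s i ∨ a = t i) ∧
      ∑ i, (1 : ℝ) / orderOf ((s i)⁻¹ * t i) ≤ lam j := by
    intro j
    obtain ⟨hne, m, hm⟩ := hB j
    have hfin : (B j).Finite := Set.toFinite _
    have hc : hfin.toFinset.card = 2 * m := by
      rw [← Set.ncard_eq_toFinset_card _ hfin]
      omega
    have hm0 : 0 < m := by
      have h1 := (Set.ncard_pos hfin).2 hne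
      omega
    obtain ⟨s, t, h1, h2⟩ := coset_pairs (g j) (x j) hfin.toFinset m hc hm0
      (fun a ha => hx j a (hfin.mem_toFinset.1 ha)) (lam j) (by
        rw [← Set.ncard_eq_toFinset_card _ hfin]
        exact hlam j)
    refine ⟨m, s, t, by omega, ?_, h2⟩
    intro a
    rw [← h1 a, hfin.mem_toFinset]
  choose h s t hc hst hl using hpair
  have hcard : A.ncard = 2 * ∑ j, h j := by
    have h1 : A = ⋃ j, B j := by
      ext a
      rw [Set.mem_iUnion]
      exact hAB a
    rw [h1, Set.ncard_iUnion_of_finite (fun j => Set.toFinite _)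
      (fun i j hij => hdis i j hij), finsum_eq_sum_of_fintype, Finset.mul_sum]
    exact Finset.sum_congr rfl fun j _ => hc j
  have h3 : A.ncard / 2 = Fintype.card ((j : Fin r) × Fin (h j)) := by
    rw [hcard, Fintype.card_sigma]
    simp
  rw [h3]
  refine haar_ld A X hX.1 hX.2 (fun i : (j : Fin r) × Fin (h j) => s i.1 i.2)
    (fun i => t i.1 i.2) ?_ ?_
  · intro a
    rw [hAB]
    constructor
    · rintro ⟨j, hj⟩
      obtain ⟨i, hi⟩ := (hst j a).1 hj
      exact ⟨⟨j, i⟩, hi⟩
    · rintro ⟨⟨j, i⟩, hi⟩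
      exact ⟨j, (hst j a).2 ⟨i, hi⟩⟩
  · rw [Fintype.sum_sigma]
    exact (Finset.sum_le_sum fun j _ => hl j).trans hsum

theorem odd_haar {Γ : Type} [Group Γ] [Finite Γ] (A : Set Γ) (h : OddPairs A)
    (X : SimpleGraph (Γ × Bool)) (hX : IsHaar A X) (W : Type) [Finite W] (G : SimpleGraph W)
    (f : W → Γ × Bool) (hom : ∀ a b, G.Adj a b → X.Adj (f a) (f b))
    (inj : ∀ a b c, G.Adj a b → G.Adj a c → f b = f c → b = c) :
    Cov G ((A.ncard + 2) / 2) := by
  classical
  obtain ⟨a₀, ha₀, σ, hσ⟩ := h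
  have hfin : A.Finite := Set.toFinite _
  obtain ⟨S, rfl⟩ := hfin.exists_finset_coe
  rw [Set.ncard_coe_finset] at hσ ⊢
  obtain ⟨T, hTS, hT, hcard, -⟩ := halve2 (S.erase a₀) σ
    (fun s hs => by
      rw [Finset.mem_erase] at hs ⊢
      have h1 := hσ s (by exact_mod_cast hs.2) hs.1
      exact ⟨h1.2.1, by exact_mod_cast h1.1⟩)
    (fun s hs => by
      rw [Finset.mem_erase] at hs
      exact (hσ s (by exact_mod_cast hs.2) hs.1).2.2.1)
    (fun s hs => by
      rw [Finset.mem_erase] at hs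
      exact (hσ s (by exact_mod_cast hs.2) hs.1).2.2.2.1)
  have ha₀' : a₀ ∈ S := by exact_mod_cast ha₀
  rw [Finset.card_erase_of_mem ha₀'] at hcard
  have hpos : 0 < S.card := Finset.card_pos.2 ⟨a₀, ha₀'⟩
  have hT' : ∀ s ∈ T, s ∈ S ∧ s ≠ a₀ := by
    intro s hs
    have := hTS hs
    rw [Finset.mem_erase] at this
    exact ⟨this.2, this.1⟩
  have hU : X = PG a₀ a₀ ⊔ ⨆ i : T, PG (i : Γ) (σ i) := by
    have h1 := haar_union (S : Set Γ) X hX.1 hX.2 (κ := Option T)
      (fun o => o.elim a₀ (fun i => (i : Γ))) (fun o => o.elim a₀ (fun i => σ i)) (by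
      intro a
      constructor
      · intro ha
        by_cases haa : a = a₀
        · exact ⟨none, Or.inl haa⟩
        · rcases hT a (Finset.mem_erase.2 ⟨haa, by exact_mod_cast ha⟩) with h | h
          · exact ⟨some ⟨a, h⟩, Or.inl rfl⟩
          · refine ⟨some ⟨σ a, h⟩, Or.inr ?_⟩
            exact (hσ a ha haa).2.2.1.symm
      · rintro ⟨_ | ⟨i, hi⟩, h | h⟩
        · simp only [Option.elim] at h
          rw [h]; exact ha₀
        · simp only [Option.elim] at h
          rw [h]; exact ha₀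
        · simp only [Option.elim] at h
          rw [h]
          exact_mod_cast (hT' i hi).1
        · simp only [Option.elim] at h
          rw [h]
          exact (hσ i (by exact_mod_cast (hT' i hi).1) (hT' i hi).2).1)
    rw [h1, iSup_option]
    rfl
  have h2 : (S.card + 2) / 2 = Fintype.card T + 1 := by
    rw [Fintype.card_coe]
    omega
  rw [h2]
  refine lift_odd (PG a₀ a₀) (fun i : T => PG (i : Γ) (σ i)) hU (PG_deg_one a₀)
    (fun i v => PG_deg _ _ v) (6 * S.card - 14) ?_ ?_ G f hom inj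
  · rw [Fintype.card_coe]
    omega
  · rintro ⟨i, hi⟩ v
    have h3 := (hσ i (by exact_mod_cast (hT' i hi).1) (hT' i hi).2).2.2.2.2
    have h4 := PG_size i (σ i) v
    simp only
    omega

theorem conj_of {V : Type} [Finite V] [Nonempty V] (X : SimpleGraph V) (d : ℕ) (hd : 0 < d)
    (hreg : ∀ v, (X.neighborSet v).ncard = d)
    (h : ∀ (W : Type) [Finite W] (G : SimpleGraph W) (f : W → V),
      (∀ a b, G.Adj a b → X.Adj (f a) (f b)) →
      (∀ a b c, G.Adj a b → G.Adj a c → f b = f c → b = c) → Cov G ((d + 2) / 2)) :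
    Conj X d := by
  refine ⟨hreg, ?_, ?_⟩
  · exact la_eq_of_cov hd hreg (h V X id (fun a b h => h) (fun a b c _ _ h => h))
  · intro W _ _ G f hom inj
    have h1 := h W G f hom inj
    exact ⟨la_le h1, fun hr => la_eq_of_cov hd hr h1⟩

theorem haar_cov {Γ : Type} [Group Γ] [Finite Γ] (A : Set Γ) (hA : EvenCosets A ∨ OddPairs A)
    (X : SimpleGraph (Γ × Bool)) (hX : IsHaar A X) (W : Type) [Finite W] (G : SimpleGraph W)
    (f : W → Γ × Bool) (hom : ∀ a b, G.Adj a b → X.Adj (f a) (f b))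
    (inj : ∀ a b c, G.Adj a b → G.Adj a c → f b = f c → b = c) :
    Cov G ((A.ncard + 2) / 2) := by
  rcases hA with h | h
  · have h1 := (even_haar A h X hX).lift G f hom inj
    have h2 : (A.ncard + 2) / 2 = A.ncard / 2 + 1 := by omega
    rwa [h2]
  · exact odd_haar A h X hX W G f hom inj

/-- **The linear arboricity conjecture for Haar graphs and bipartite Cayley graphs.** -/
theorem result (Γ : Type) [Group Γ] [Finite Γ] (A : Set Γ) (hne : A.Nonempty) :
    -- the Haar graphs
    (EvenCosets A ∨ OddPairs A → ∀ X : SimpleGraph (Γ × Bool), IsHaar A X → Conj X A.ncard) ∧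
    -- the bipartite Cayley graphs
    (EvenCosets A ∨ OddPairs A → ∀ X : SimpleGraph Γ, (∀ g h, X.Adj g h ↔ g⁻¹ * h ∈ A) →
      (∃ K : Subgroup Γ, K.index = 2 ∧ ∀ a ∈ A, a ∉ K) → Conj X A.ncard) ∧
    -- special cases: sets of even size in one or two cosets of cyclic groups
    (∀ x g : Γ, Even A.ncard → (∀ a ∈ A, ∃ k : ℕ, a = x * g ^ k) → EvenCosets A) ∧
    (∀ (B C : Set Γ) (x g y h : Γ), A = B ∪ C → Disjoint B C → Even B.ncard → Even C.ncard →
      (∀ a ∈ B, ∃ k : ℕ, a = x * g ^ k) → (∀ a ∈ C, ∃ k : ℕ, a = y * h ^ k) → EvenCosets A) ∧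
    (∀ c : Γ, (Subgroup.zpowers c).index = 2 → Even A.ncard →
      (∀ a ∈ A, a ∉ Subgroup.zpowers c) → EvenCosets A) := by
  have hd : 0 < A.ncard := (Set.ncard_pos (Set.toFinite _)).2 hne
  have one : ∀ (A : Set Γ), A.Nonempty → ∀ x g : Γ, Even A.ncard →
      (∀ a ∈ A, ∃ k : ℕ, a = x * g ^ k) → EvenCosets A := by
    intro A hne x g he hx
    refine ⟨1, fun _ => A, fun _ => x, fun _ => g, fun _ => 1 / 2, fun a => by simp,
      fun i j hij => absurd (Subsingleton.elim i j) hij, fun _ => ⟨hne, he⟩, fun _ => hx,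
      fun _ => Or.inl rfl, ?_⟩
    simp
    norm_num
  refine ⟨?_, ?_, one A hne, ?_, ?_⟩
  · intro hA X hX
    exact conj_of X _ hd (fun v => haar_deg A X hX.1 hX.2 v)
      (fun W _ G f hom inj => haar_cov A hA X hX W G f hom inj)
  · rintro hA X hX ⟨K, hK, hKA⟩
    classical
    obtain ⟨Y, hY⟩ : ∃ Y : SimpleGraph (Γ × Bool), IsHaar A Y := by
      refine ⟨⟨fun x y => (x.2 = false ∧ y.2 = true ∧ x.1⁻¹ * y.1 ∈ A) ∨
        (y.2 = false ∧ x.2 = true ∧ y.1⁻¹ * x.1 ∈ A), ⟨fun x y h => h.symm⟩, ⟨?_⟩⟩, ?_, ?_⟩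
      · rintro x (⟨h1, h2, _⟩ | ⟨h1, h2, _⟩)
        · rw [h1] at h2; exact Bool.noConfusion h2
        · rw [h1] at h2; exact Bool.noConfusion h2
      · intro g h
        simp
      · intro g h b
        cases b <;> simp
    have hf : ∀ g h, X.Adj g h → Y.Adj (g, decide (g ∉ K)) (h, decide (h ∉ K)) := by
      intro g h hgh
      have h1 := (hX g h).1 hgh
      have h2 := hKA _ h1
      have h3 : h = g * (g⁻¹ * h) := by group
      by_cases hg : g ∈ K
      · have h4 : h ∉ K := by
          rw [h3, Subgroup.mul_mem_iff_of_index_two hK]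
          tauto
        simp only [hg, h4, not_true_eq_false, not_false_eq_true, decide_true, decide_false]
        exact (hY.1 g h).2 h1
      · have h4 : h ∈ K := by
          rw [h3, Subgroup.mul_mem_iff_of_index_two hK]
          tauto
        simp only [hg, h4, not_true_eq_false, not_false_eq_true, decide_true, decide_false]
        exact (Y.adj_comm _ _).1 ((hY.1 h g).2 ((hX h g).1 hgh.symm))
    have hdeg : ∀ v, (X.neighborSet v).ncard = A.ncard := by
      intro v
      have h1 : X.neighborSet v = (fun a => v * a) '' A := by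
        ext w
        constructor
        · intro hw
          exact ⟨v⁻¹ * w, (hX v w).1 hw, by simp⟩
        · rintro ⟨a, ha, rfl⟩
          exact (hX v (v * a)).2 (by simpa using ha)
      rw [h1, Set.ncard_image_of_injective]
      exact mul_right_injective v
    refine conj_of X _ hd hdeg fun W _ G f hom inj => ?_
    exact haar_cov A hA Y hY W G (fun a => (f a, decide (f a ∉ K)))
      (fun a b hab => hf _ _ (hom a b hab))
      (fun a b c hab hac h => inj a b c hab hac (Prod.mk.inj h).1)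
  · intro B C x g y h hABC hdis hB hC hx hy
    rcases Set.eq_empty_or_nonempty B with hB0 | hB0
    · rw [hB0, Set.empty_union] at hABC
      subst hABC
      exact one _ hne y h hC hy
    rcases Set.eq_empty_or_nonempty C with hC0 | hC0
    · rw [hC0, Set.union_empty] at hABC
      subst hABC
      exact one _ hne x g hB hx
    refine ⟨2, ![B, C], ![x, y], ![g, h], fun _ => 1 / 2, ?_, ?_, ?_, ?_, fun _ => Or.inl rfl, ?_⟩
    · intro a
      rw [hABC]
      simp [Fin.exists_fin_two]
    · intro i j hij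
      fin_cases i <;> fin_cases j
      · exact absurd rfl hij
      · exact hdis
      · exact hdis.symm
      · exact absurd rfl hij
    · intro j
      fin_cases j
      · exact ⟨hB0, hB⟩
      · exact ⟨hC0, hC⟩
    · intro j
      fin_cases j
      · exact hx
      · exact hy
    · simp
  · intro c hc he hA
    obtain ⟨x, hx⟩ := hne
    refine one A ⟨x, hx⟩ x c he fun a ha => ?_
    have h1 : x⁻¹ * a ∈ Subgroup.zpowers c := by
      rw [Subgroup.mul_mem_iff_of_index_two hc, inv_mem_iff]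
      have := hA a ha
      have := hA x hx
      tauto
    obtain ⟨k, hk⟩ := (mem_powers_iff_mem_zpowers.2 h1 : x⁻¹ * a ∈ Submonoid.powers c)
    have hk' : c ^ k = x⁻¹ * a := hk
    exact ⟨k, by rw [hk']; group⟩

end Pool.Agent.Results.MP_0a041d_co.HaarGraphs
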