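import Pool.Agent.T9h44.LA.Cover
import Pool.Agent.W111.LAR.Top

set_option autoImplicit false

/-!
# Linear arboricity of random covers of a graph

`H931R3.LA.la G` is the linear arboricity (the same expression as in the frozen statement S07085).
-/

namespace Pool.Agent.Results.MP_0a041d_co.RandomCovers

open SimpleGraph H931R3.LA Pool.Agent.W111.LAR Equiv

/-- For a family `σ` of permutations of `Fin n`, one for each pair of vertices, the permutation
attached to the ordered pair `(u, v)`: it is `σ u v` if `u < v` and the inverse of `σ v u`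
otherwise. -/
def volt {V : Type} [LinearOrder V] {n : ℕ} (σ : V → V → Perm (Fin n)) (u v : V) :
    Perm (Fin n) := if u < v then σ u v else (σ v u)⁻¹

/-- `H` is the `n`-sheeted cover of `G` given by the family `σ` of permutations: over each edge
`u v` of `G` it has the perfect matching `(u, i) (v, σ_uv i)` between the fibres. -/
def IsCover {V : Type} [LinearOrder V] {n : ℕ} (G : SimpleGraph V) (σ : V → V → Perm (Fin n))
    (H : SimpleGraph (V × Fin n)) : Prop :=
  ∀ p q, H.Adj p q ↔ G.Adj p.1 q.1 ∧ q.2 = volt σ p.1 q.1 p.2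

/-- The linear arboricity conjecture for the cover of `G` (of maximum degree at most `2 k`)
given by `σ`. -/
def Good {V : Type} [LinearOrder V] {n : ℕ} (k : ℕ) (G : SimpleGraph V)
    (σ : V → V → Perm (Fin n)) : Prop :=
  ∃ H : SimpleGraph (V × Fin n), IsCover G σ H ∧ la H ≤ k + 1 ∧
    ((∀ v, (G.neighborSet v).ncard = 2 * k) → (∀ p, (H.neighborSet p).ncard = 2 * k) ∧
      la H = k + 1)

/-- Let `G` be a finite nonempty graph of maximum degree at most `2 k`, `k ≥ 1`. For all `n`, the
linear arboricity conjecture holds for all but a fraction `200 k ^ 4 |V| / n` of the `n`-sheeted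
covers of `G`. -/
theorem result (k : ℕ) (hk : 1 ≤ k) (V : Type) [Fintype V] [Nonempty V] [LinearOrder V]
    (G : SimpleGraph V) (hG : ∀ v, (G.neighborSet v).ncard ≤ 2 * k) (n : ℕ) :
    n * {σ : V → V → Perm (Fin n) | ¬ Good k G σ}.ncard ≤
      200 * k ^ 4 * Fintype.card V * Nat.card (V → V → Perm (Fin n)) := by
  classical
  have hV : 1 ≤ Fintype.card V := Fintype.card_pos
  rw [Nat.card_eq_fintype_card]
  -- few sheets
  rcases Nat.lt_or_ge n (12 * k + 2) with hn | hn
  · have h1 : {σ : V → V → Perm (Fin n) | ¬ Good k G σ}.ncard ≤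
        Fintype.card (V → V → Perm (Fin n)) := by
      rw [← Nat.card_eq_fintype_card]
      exact Set.ncard_le_card _
    refine Nat.mul_le_mul ?_ h1
    have h2 : 1 ≤ k ^ 3 := Nat.one_le_pow _ _ hk
    have h3 : 200 * k ≤ 200 * k ^ 4 * Fintype.card V := by
      calc 200 * k = 200 * k * 1 * 1 := by ring
        _ ≤ 200 * k * k ^ 3 * Fintype.card V := Nat.mul_le_mul (Nat.mul_le_mul_left _ h2) hV
        _ = _ := by ring
    omega
  obtain ⟨R, h1, h2, h3, h4, h5, h6⟩ := Pool.Agent.T9h44.RC.decomp_dir G k hG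
  have hn0 : 0 < n := by omega
  have hvolt : ∀ (σ : V → V → Perm (Fin n)) u v, volt σ u v = Pool.Agent.T9h44.RC.volt σ u v :=
    fun σ u v => rfl
  have hgood : ∀ σ : V → V → Perm (Fin n), ¬ Pool.Agent.T9h44.RC.Bad R (6 * k + 1) σ →
      Good k G σ := by
    intro σ hσ
    have hcov := Pool.Agent.T9h44.RC.cov_of_not_bad G R h1 h2 h3 h4 h6 σ hσ
    refine ⟨Pool.Agent.T9h44.RC.cover G σ, fun p q => Iff.rfl, la_le hcov, ?_⟩
    intro hreg
    have hdeg : ∀ p, ((Pool.Agent.T9h44.RC.cover G σ).neighborSet p).ncard = 2 * k := by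
      intro p
      rw [← hreg p.1]
      have h7 : (Pool.Agent.T9h44.RC.cover G σ).neighborSet p =
          (fun u => (u, Pool.Agent.T9h44.RC.volt σ p.1 u p.2)) '' (G.neighborSet p.1) := by
        ext q
        constructor
        · rintro ⟨h8, h9⟩
          exact ⟨q.1, h8, Prod.ext rfl h9.symm⟩
        · rintro ⟨u, hu, rfl⟩
          exact ⟨hu, rfl⟩
      rw [h7]
      apply Set.ncard_image_of_injective
      intro u u' h
      exact congrArg Prod.fst h
    refine ⟨hdeg, ?_⟩
    have hne : Nonempty (V × Fin n) := ⟨(Classical.arbitrary V, ⟨0, hn0⟩)⟩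
    have h8 : (2 * k + 2) / 2 = k + 1 := by omega
    rw [← h8]
    apply la_eq_of_cov (by omega) hdeg
    rw [h8]
    exact hcov
  have hcount := Pool.Agent.T9h44.RC.bad_count (n := n) R h5 h6 (6 * k + 1) (by omega)
  have hle : {σ : V → V → Perm (Fin n) | ¬ Good k G σ}.ncard ≤
      (Finset.univ.filter fun σ : V → V → Perm (Fin n) =>
        Pool.Agent.T9h44.RC.Bad R (6 * k + 1) σ).card := by
    rw [← Set.ncard_coe_finset]
    apply Set.ncard_le_ncard _ (Set.toFinite _)
    intro σ hσ
    rw [Finset.mem_coe, Finset.mem_filter]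
    refine ⟨Finset.mem_univ _, ?_⟩
    by_contra hno
    exact hσ (hgood σ hno)
  obtain ⟨B, hB⟩ : ∃ B, B = (Finset.univ.filter fun σ : V → V → Perm (Fin n) =>
        Pool.Agent.T9h44.RC.Bad R (6 * k + 1) σ).card := ⟨_, rfl⟩
  rw [← hB] at hcount hle
  obtain ⟨O, hO⟩ : ∃ O, O = Fintype.card (V → V → Perm (Fin n)) := ⟨_, rfl⟩
  rw [← hO] at hcount ⊢
  obtain ⟨m, hm⟩ : ∃ m, m = n - (6 * k + 1) := ⟨_, rfl⟩
  rw [← hm] at hcount
  have h7 : n ≤ 2 * m := by omega
  have h8 : n * (n * B) ≤ n * (200 * k ^ 4 * Fintype.card V * O) := by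
    have h9 : (6 * k + 1) * (6 * k + 1) ≤ 49 * (k * k) := by nlinarith
    calc n * (n * B) = (n * n) * B := by ring
      _ ≤ (2 * m * (2 * m)) * B := Nat.mul_le_mul_right _ (Nat.mul_le_mul h7 h7)
      _ = 4 * (B * (m * m)) := by ring
      _ ≤ 4 * (Fintype.card V * n * (k * k) * ((6 * k + 1) * (6 * k + 1)) * O) :=
        Nat.mul_le_mul_left _ hcount
      _ ≤ 4 * (Fintype.card V * n * (k * k) * (49 * (k * k)) * O) :=
        Nat.mul_le_mul_left _ (Nat.mul_le_mul_right _ (Nat.mul_le_mul_left _ h9))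
      _ = 196 * (n * (k ^ 4 * Fintype.card V * O)) := by ring
      _ ≤ 200 * (n * (k ^ 4 * Fintype.card V * O)) := Nat.mul_le_mul_right _ (by norm_num)
      _ = n * (200 * k ^ 4 * Fintype.card V * O) := by ring
  exact (Nat.mul_le_mul_left _ hle).trans (Nat.le_of_mul_le_mul_left h8 hn0)

end Pool.Agent.Results.MP_0a041d_co.RandomCovers
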